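import Mathlib

namespace Pool.Agent.Results.MP_39b49d_nt.LogCount

lemma floor_eq (n : ℕ) : ⌊((4 : ℝ) / 3) ^ n⌋₊ = 4 ^ n / 3 ^ n := by
  rw [div_pow]
  have := Nat.floor_div_eq_div (K := ℝ) (4 ^ n) (3 ^ n)
  exact_mod_cast this

lemma step (n : ℕ) : 3 * (4 ^ (n + 1) / 3 ^ (n + 1)) ≤ 4 * (4 ^ n / 3 ^ n) + 3 ∧
    4 * (4 ^ n / 3 ^ n) ≤ 3 * (4 ^ (n + 1) / 3 ^ (n + 1)) + 2 := by
  have hP : 0 < 3 ^ n := by positivity
  have hQ : 0 < 3 ^ (n + 1) := by positivity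
  have a1 : 3 ^ n * (4 ^ n / 3 ^ n) ≤ 4 ^ n := Nat.mul_div_le _ _
  have a2 : 4 ^ n < 3 ^ n * (4 ^ n / 3 ^ n + 1) := Nat.lt_mul_div_succ _ hP
  have b1 : 3 ^ (n + 1) * (4 ^ (n + 1) / 3 ^ (n + 1)) ≤ 4 ^ (n + 1) := Nat.mul_div_le _ _
  have b2 : 4 ^ (n + 1) < 3 ^ (n + 1) * (4 ^ (n + 1) / 3 ^ (n + 1) + 1) :=
    Nat.lt_mul_div_succ _ hQ
  set A := 4 ^ n / 3 ^ n with hA
  set B := 4 ^ (n + 1) / 3 ^ (n + 1) with hB
  rw [pow_succ 3 n, pow_succ 4 n] at b1 b2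
  generalize 3 ^ n = P at *
  generalize 4 ^ n = X at *
  constructor
  · have : P * (3 * B) < P * (4 * A + 4) := by nlinarith
    have := Nat.lt_of_mul_lt_mul_left this
    omega
  · have : P * (4 * A) < P * (3 * B + 3) := by nlinarith
    have := Nat.lt_of_mul_lt_mul_left this
    omega

/-- A number coprime to 210. -/
def Good (b : ℕ) : Prop := b % 2 = 1 ∧ b % 3 ≠ 0 ∧ b % 5 ≠ 0 ∧ b % 7 ≠ 0

lemma good_of_prime (b : ℕ) (hb : b.Prime) (h7 : 7 < b) : Good b := by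
  have key : ∀ q, q.Prime → q ≤ 7 → b % q ≠ 0 := by
    intro q hq hq7 h0
    have hd : q ∣ b := Nat.dvd_of_mod_eq_zero h0
    have := (Nat.prime_dvd_prime_iff_eq hq hb).mp hd
    omega
  refine ⟨?_, key 3 (by norm_num) (by norm_num), key 5 (by norm_num) (by norm_num),
    key 7 (by norm_num) (by norm_num)⟩
  have := key 2 (by norm_num) (by norm_num)
  omega

lemma run (b : ℕ → ℕ) (k : ℕ) (hk : 15 ≤ k) (hg : ∀ j, j < k → Good (b j))
    (hb1 : ∀ j, j < k → 1 < b j)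
    (hs : ∀ j, j + 1 < k → 3 * b (j + 1) ≤ 4 * b j + 3 ∧ 4 * b j ≤ 3 * b (j + 1) + 2) :
    ∃ j0, j0 ≤ 14 ∧ 3 ^ (k - 1 - j0) ≤ b j0 + 1 := by
  have hs' : ∀ j, j + 1 < k → 3 * b (j + 1) = 4 * b j + 1 ∨ 3 * b (j + 1) + 1 = 4 * b j := by
    intro j hj
    obtain ⟨h1, h2⟩ := hs j hj
    obtain ⟨g1, g2, -, -⟩ := hg j (by omega)
    obtain ⟨g3, -, -, -⟩ := hg (j + 1) hj
    omega
  -- exit
  have hexit : ∃ j0, j0 ≤ 14 ∧ (b j0 % 5 = 1 ∨ b j0 % 5 = 4) := by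
    by_contra hno
    push Not at hno
    have h23 : ∀ j, j ≤ 14 → b j % 5 = 2 ∨ b j % 5 = 3 := by
      intro j hj
      have := hno j hj
      have := (hg j (by omega)).2.2.1
      omega
    have hstart : ∃ i, i ≤ 1 ∧ b i % 5 = 2 := by
      rcases h23 0 (by omega) with h | h
      · exact ⟨0, by omega, h⟩
      · refine ⟨1, le_rfl, ?_⟩
        have h1 := h23 1 (by omega)
        have h2 := hs' 0 (by omega)
        simp only [zero_add] at h2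
        omega
    obtain ⟨i, hi, hi2⟩ := hstart
    have hind : ∀ t, t ≤ 6 → b (i + 2 * t) % 5 = 2 ∧ b (i + 2 * t) % 7 = (b i + 4 * t) % 7 := by
      intro t
      induction t with
      | zero => intro _; simpa using hi2
      | succ t ih =>
        intro ht
        obtain ⟨h1, h2⟩ := ih (by omega)
        have e1 := hs' (i + 2 * t) (by omega)
        have e2 := hs' (i + 2 * t + 1) (by omega)
        have f1 := h23 (i + 2 * t + 1) (by omega)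
        have f2 := h23 (i + 2 * t + 1 + 1) (by omega)
        have e : i + 2 * (t + 1) = i + 2 * t + 1 + 1 := by ring
        rw [e]
        generalize b (i + 2 * t) = u at *
        generalize b (i + 2 * t + 1) = v at *
        generalize b (i + 2 * t + 1 + 1) = w at *
        generalize b i = z at *
        omega
    have ht : (5 * b i) % 7 ≤ 6 := by omega
    have h := (hind _ ht).2
    have hgd := (hg (i + 2 * ((5 * b i) % 7)) (by omega)).2.2.2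
    apply hgd
    rw [h]
    omega
  obtain ⟨j0, hj0, hcase⟩ := hexit
  refine ⟨j0, hj0, ?_⟩
  have hcop : IsCoprime ((3 : ℤ) ^ (k - 1 - j0)) ((4 : ℤ) ^ (k - 1 - j0)) := by
    apply IsCoprime.pow
    exact ⟨-1, 1, by norm_num⟩
  rcases hcase with h1 | h4
  · have hind : ∀ t, j0 + t < k → (3 : ℤ) ^ t * ((b (j0 + t) : ℤ) - 1) = 4 ^ t * ((b j0 : ℤ) - 1) ∧
        b (j0 + t) % 5 = 1 := by
      intro t
      induction t with
      | zero => intro _; simp [h1]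
      | succ t ih =>
        intro ht
        obtain ⟨e1, e2⟩ := ih (by omega)
        have f1 := hs' (j0 + t) (by omega)
        have f2 := (hg (j0 + t + 1) (by omega)).2.2.1
        have f3 : 3 * b (j0 + t + 1) + 1 = 4 * b (j0 + t) := by
          rcases f1 with f | f
          · exfalso; omega
          · exact f
        refine ⟨?_, ?_⟩
        · have f3' : 3 * (b (j0 + t + 1) : ℤ) + 1 = 4 * (b (j0 + t) : ℤ) := by exact_mod_cast f3
          rw [← add_assoc, pow_succ, pow_succ]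
          calc (3 : ℤ) ^ t * 3 * ((b (j0 + t + 1) : ℤ) - 1)
              = 3 ^ t * (3 * (b (j0 + t + 1) : ℤ) + 1 - 4) := by ring
            _ = 4 * (3 ^ t * ((b (j0 + t) : ℤ) - 1)) := by rw [f3']; ring
            _ = _ := by rw [e1]; ring
        · rw [← add_assoc]; omega
    obtain ⟨e, -⟩ := hind (k - 1 - j0) (by omega)
    have hd : (3 : ℤ) ^ (k - 1 - j0) ∣ (b j0 : ℤ) - 1 := by
      apply hcop.dvd_of_dvd_mul_left
      exact ⟨_, e.symm⟩
    have hpos : (0 : ℤ) < (b j0 : ℤ) - 1 := by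
      have := hb1 j0 (by omega)
      omega
    have := Int.le_of_dvd hpos hd
    have h' : ((3 ^ (k - 1 - j0) : ℕ) : ℤ) ≤ ((b j0 + 1 : ℕ) : ℤ) := by
      push_cast
      linarith
    exact_mod_cast h'
  · have hind : ∀ t, j0 + t < k → (3 : ℤ) ^ t * ((b (j0 + t) : ℤ) + 1) = 4 ^ t * ((b j0 : ℤ) + 1) ∧
        b (j0 + t) % 5 = 4 := by
      intro t
      induction t with
      | zero => intro _; simp [h4]
      | succ t ih =>
        intro ht
        obtain ⟨e1, e2⟩ := ih (by omega)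
        have f1 := hs' (j0 + t) (by omega)
        have f2 := (hg (j0 + t + 1) (by omega)).2.2.1
        have f3 : 3 * b (j0 + t + 1) = 4 * b (j0 + t) + 1 := by
          rcases f1 with f | f
          · exact f
          · exfalso; omega
        refine ⟨?_, ?_⟩
        · have f3' : 3 * (b (j0 + t + 1) : ℤ) = 4 * (b (j0 + t) : ℤ) + 1 := by exact_mod_cast f3
          rw [← add_assoc, pow_succ, pow_succ]
          calc (3 : ℤ) ^ t * 3 * ((b (j0 + t + 1) : ℤ) + 1)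
              = 3 ^ t * (3 * (b (j0 + t + 1) : ℤ) + 3) := by ring
            _ = 4 * (3 ^ t * ((b (j0 + t) : ℤ) + 1)) := by rw [f3']; ring
            _ = _ := by rw [e1]; ring
        · rw [← add_assoc]; omega
    obtain ⟨e, -⟩ := hind (k - 1 - j0) (by omega)
    have hd : (3 : ℤ) ^ (k - 1 - j0) ∣ (b j0 : ℤ) + 1 := by
      apply hcop.dvd_of_dvd_mul_left
      exact ⟨_, e.symm⟩
    have hpos : (0 : ℤ) < (b j0 : ℤ) + 1 := by positivity
    have := Int.le_of_dvd hpos hd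
    have h' : ((3 ^ (k - 1 - j0) : ℕ) : ℤ) ≤ ((b j0 + 1 : ℕ) : ℤ) := by
      push_cast
      linarith
    exact_mod_cast h'

lemma big (k : ℕ) (hk : 92 ≤ k) : 2 ^ 31 * 64 ^ k < 81 ^ k := by
  induction k, hk using Nat.le_induction with
  | base => norm_num
  | succ k _ ih =>
    rw [pow_succ, pow_succ]
    omega

lemma large (n : ℕ) (hn : 12 ≤ n) : 7 < 4 ^ n / 3 ^ n := by
  have h : 8 * 3 ^ n ≤ 4 ^ n := by
    induction n, hn using Nat.le_induction with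
    | base => norm_num
    | succ n _ ih =>
      rw [pow_succ, pow_succ]
      omega
  have := (Nat.le_div_iff_mul_le (by positivity : 0 < 3 ^ n)).mpr h
  omega

lemma gap (k : ℕ) (hk : 92 ≤ k) : ∃ m, 3 * k < m ∧ m ≤ 4 * k ∧ 1 < 4 ^ m / 3 ^ m ∧
    ¬ (4 ^ m / 3 ^ m).Prime := by
  by_contra hno
  push Not at hno
  have hlarge : ∀ m, 3 * k < m → 7 < 4 ^ m / 3 ^ m := fun m hm => large m (by omega)
  have hprime : ∀ m, 3 * k < m → m ≤ 4 * k → (4 ^ m / 3 ^ m).Prime := by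
    intro m h1 h2
    exact hno m h1 h2 (by have := hlarge m h1; omega)
  obtain ⟨j0, hj0, hle⟩ := run (fun j => 4 ^ (3 * k + 1 + j) / 3 ^ (3 * k + 1 + j)) k (by omega)
    (fun j hj => good_of_prime _ (hprime _ (by omega) (by omega)) (hlarge _ (by omega)))
    (fun j hj => by
      have := hlarge (3 * k + 1 + j) (by omega)
      change 1 < 4 ^ (3 * k + 1 + j) / 3 ^ (3 * k + 1 + j)
      omega)
    (fun j hj => step (3 * k + 1 + j))
  have a1 : 3 ^ (3 * k + 1 + j0) * (4 ^ (3 * k + 1 + j0) / 3 ^ (3 * k + 1 + j0)) ≤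
    4 ^ (3 * k + 1 + j0) := Nat.mul_div_le _ _
  have h1 : 3 ^ (3 * k + 1 + j0) * 3 ^ (k - 1 - j0) ≤ 4 ^ (3 * k + 1 + j0) + 3 ^ (3 * k + 1 + j0) := by
    calc 3 ^ (3 * k + 1 + j0) * 3 ^ (k - 1 - j0)
        ≤ 3 ^ (3 * k + 1 + j0) * (4 ^ (3 * k + 1 + j0) / 3 ^ (3 * k + 1 + j0) + 1) :=
          Nat.mul_le_mul_left _ hle
      _ = 3 ^ (3 * k + 1 + j0) * (4 ^ (3 * k + 1 + j0) / 3 ^ (3 * k + 1 + j0)) +
          3 ^ (3 * k + 1 + j0) := by ring
      _ ≤ _ := Nat.add_le_add_right a1 _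
  have h2 : 3 ^ (3 * k + 1 + j0) * 3 ^ (k - 1 - j0) = 81 ^ k := by
    rw [← pow_add, show 3 * k + 1 + j0 + (k - 1 - j0) = 4 * k by omega, pow_mul]
    norm_num
  have h3 : 4 ^ (3 * k + 1 + j0) ≤ 4 ^ (3 * k + 15) :=
    Nat.pow_le_pow_right (by norm_num) (by omega)
  have h4 : 3 ^ (3 * k + 1 + j0) ≤ 4 ^ (3 * k + 1 + j0) := Nat.pow_le_pow_left (by norm_num) _
  have h5 : 4 ^ (3 * k + 15) = 2 ^ 30 * 64 ^ k := by
    rw [pow_add, pow_mul]; norm_num; ring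
  have h6 := big k hk
  rw [h2] at h1
  have h7 : 2 ^ 31 * 64 ^ k = 2 * (2 ^ 30 * 64 ^ k) := by ring
  rw [h7] at h6
  rw [h5] at h3
  omega

/-- Among the integer parts of the powers of `4/3`: for every `k ≥ 92` one of the exponents
`m ∈ (3k, 4k]` gives a composite number, and the number of exponents `1 ≤ n ≤ N` for which
`⌊(4/3)^n⌋` is composite is at least `log₂ N - 9`. -/
theorem result :
    (∀ k : ℕ, 92 ≤ k → ∃ m : ℕ, 3 * k < m ∧ m ≤ 4 * k ∧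
      1 < ⌊((4 : ℝ) / 3) ^ m⌋₊ ∧ ¬ (⌊((4 : ℝ) / 3) ^ m⌋₊).Prime) ∧
    (∀ N : ℕ, 1 ≤ N → Real.logb 2 N - 9 ≤
      (Nat.card {n : ℕ // 1 ≤ n ∧ n ≤ N ∧
        1 < ⌊((4 : ℝ) / 3) ^ n⌋₊ ∧ ¬ (⌊((4 : ℝ) / 3) ^ n⌋₊).Prime} : ℝ)) := by
  constructor
  · intro k hk
    obtain ⟨m, h1, h2, h3, h4⟩ := gap k hk
    exact ⟨m, h1, h2, by rw [floor_eq]; exact h3, by rw [floor_eq]; exact h4⟩
  · intro N hN
    classical
    have hfin : Finite {n : ℕ // 1 ≤ n ∧ n ≤ N ∧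
        1 < ⌊((4 : ℝ) / 3) ^ n⌋₊ ∧ ¬ (⌊((4 : ℝ) / 3) ^ n⌋₊).Prime} := by
      apply Set.Finite.subset (Set.finite_Icc 1 N)
      intro n hn
      exact ⟨hn.1, hn.2.1⟩
    -- choose one exponent in every dyadic block
    have hch : ∀ j : ℕ, ∃ m, 7 ≤ j → (2 ^ (j + 1) < m ∧ m ≤ 2 ^ (j + 2) ∧
        1 < ⌊((4 : ℝ) / 3) ^ m⌋₊ ∧ ¬ (⌊((4 : ℝ) / 3) ^ m⌋₊).Prime) := by
      intro j
      by_cases hj : 7 ≤ j
      · have h2j : 2 ^ 7 ≤ 2 ^ j := Nat.pow_le_pow_right (by norm_num) hj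
        obtain ⟨m, h1, h2, h3, h4⟩ := gap (2 ^ j) (by omega)
        refine ⟨m, fun _ => ⟨?_, ?_, by rw [floor_eq]; exact h3, by rw [floor_eq]; exact h4⟩⟩
        · rw [pow_succ]; omega
        · rw [pow_succ, pow_succ]; omega
      · exact ⟨0, fun h => absurd h hj⟩
    choose f hf using hch
    have hcard : Nat.log 2 N - 8 ≤ Nat.card {n : ℕ // 1 ≤ n ∧ n ≤ N ∧
        1 < ⌊((4 : ℝ) / 3) ^ n⌋₊ ∧ ¬ (⌊((4 : ℝ) / 3) ^ n⌋₊).Prime} := by
      have hmap : ∀ i : Fin (Nat.log 2 N - 8), 1 ≤ f (i.1 + 7) ∧ f (i.1 + 7) ≤ N ∧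
          1 < ⌊((4 : ℝ) / 3) ^ f (i.1 + 7)⌋₊ ∧ ¬ (⌊((4 : ℝ) / 3) ^ f (i.1 + 7)⌋₊).Prime := by
        intro i
        obtain ⟨h1, h2, h3, h4⟩ := hf (i.1 + 7) (by omega)
        have hi := i.2
        have hN2 : 2 ^ Nat.log 2 N ≤ N := Nat.pow_log_le_self 2 (by omega)
        have h5 : 2 ^ (i.1 + 7 + 2) ≤ 2 ^ Nat.log 2 N :=
          Nat.pow_le_pow_right (by norm_num) (by omega)
        refine ⟨lt_of_le_of_lt (Nat.zero_le _) h1, h2.trans (h5.trans hN2), h3, h4⟩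
      have hinj : Function.Injective (fun i : Fin (Nat.log 2 N - 8) =>
          (⟨f (i.1 + 7), hmap i⟩ : {n : ℕ // 1 ≤ n ∧ n ≤ N ∧
            1 < ⌊((4 : ℝ) / 3) ^ n⌋₊ ∧ ¬ (⌊((4 : ℝ) / 3) ^ n⌋₊).Prime})) := by
        intro i i' hii
        have he : f (i.1 + 7) = f (i'.1 + 7) := congrArg Subtype.val hii
        obtain ⟨h1, h2, -, -⟩ := hf (i.1 + 7) (by omega)
        obtain ⟨h1', h2', -, -⟩ := hf (i'.1 + 7) (by omega)
        apply Fin.ext
        rcases lt_trichotomy i.1 i'.1 with hlt | heq | hgt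
        · exfalso
          have : 2 ^ (i.1 + 7 + 2) ≤ 2 ^ (i'.1 + 7 + 1) :=
            Nat.pow_le_pow_right (by norm_num) (by omega)
          omega
        · exact heq
        · exfalso
          have : 2 ^ (i'.1 + 7 + 2) ≤ 2 ^ (i.1 + 7 + 1) :=
            Nat.pow_le_pow_right (by norm_num) (by omega)
          omega
      have := Nat.card_le_card_of_injective _ hinj
      simpa using this
    have hlog : Real.logb 2 N < Nat.log 2 N + 1 := by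
      rw [Real.logb_lt_iff_lt_rpow (by norm_num) (by exact_mod_cast hN)]
      have := Nat.lt_pow_succ_log_self (by norm_num : 1 < 2) N
      have h' : ((2 : ℝ) ^ ((Nat.log 2 N : ℝ) + 1)) = ((2 ^ (Nat.log 2 N).succ : ℕ) : ℝ) := by
        rw [show ((Nat.log 2 N : ℝ) + 1) = (((Nat.log 2 N).succ : ℕ) : ℝ) by push_cast; ring]
        rw [Real.rpow_natCast]
        push_cast
        rfl
      rw [h']
      exact_mod_cast this
    have hc : ((Nat.log 2 N : ℝ) - 8) ≤ (Nat.card {n : ℕ // 1 ≤ n ∧ n ≤ N ∧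
        1 < ⌊((4 : ℝ) / 3) ^ n⌋₊ ∧ ¬ (⌊((4 : ℝ) / 3) ^ n⌋₊).Prime} : ℝ) := by
      have h8 : (Nat.log 2 N : ℕ) ≤ Nat.card {n : ℕ // 1 ≤ n ∧ n ≤ N ∧
        1 < ⌊((4 : ℝ) / 3) ^ n⌋₊ ∧ ¬ (⌊((4 : ℝ) / 3) ^ n⌋₊).Prime} + 8 := by omega
      have h9 : ((Nat.log 2 N : ℕ) : ℝ) ≤ (Nat.card {n : ℕ // 1 ≤ n ∧ n ≤ N ∧
        1 < ⌊((4 : ℝ) / 3) ^ n⌋₊ ∧ ¬ (⌊((4 : ℝ) / 3) ^ n⌋₊).Prime} : ℝ) + 8 := by
        exact_mod_cast h8
      linarith
    linarith

end Pool.Agent.Results.MP_39b49d_nt.LogCount
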